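import Mathlib
import Pool.Agent.Q34.PolyC

/-!
# MP_8dad47_al, Q1: homological shift algebras of polymatroidal ideals

For every field `K`, every `n`, every polymatroidal ideal `I` of `K[x_1, …, x_n]` and every `i > 0`
the homological shift algebra `HS_i(R(I))` is generated in degrees `≤ i` as a module over the Rees
algebra: `HS_i(I^(k+1)) = I · HS_i(I^k)` for all `k ≥ i`.
-/

set_option autoImplicit false

namespace Pool.Agent.Results.MP_8dad47_al.GenerationDegree

open MvPolynomial Finset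

variable {K : Type*} [Field K] {n : ℕ}

/-- A monomial ideal `I` of `K[x_1, …, x_n]` is polymatroidal: it is generated by the monomials
`x^u`, `u ∈ B`, where all the exponent vectors `u ∈ B` have the same degree `d` and the exchange
condition holds: if `u, v ∈ B` and `u_p > v_p` then there is `q` with `u_q < v_q` such that
`w = u - e_p + e_q ∈ B` (that is, `x^w = x_q x^u / x_p`). As all generators have the same degree,
they are the minimal ones. -/
def IsPolymatroidal (I : Ideal (MvPolynomial (Fin n) K)) : Prop :=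
  ∃ (B : Set (Fin n →₀ ℕ)) (d : ℕ), (∀ u ∈ B, ∑ i, u i = d) ∧
    (∀ u ∈ B, ∀ v ∈ B, ∀ p, v p < u p →
      ∃ q, u q < v q ∧ ∃ w ∈ B, w + Finsupp.single p 1 = u + Finsupp.single q 1) ∧
    I = Ideal.span ((fun u => monomial u (1 : K)) '' B)

/-- The exponent vector of the squarefree monomial `∏_{i ∈ F} x_i`. -/
noncomputable def expo (F : Finset (Fin n)) : Fin n →₀ ℕ := ∑ i ∈ F, Finsupp.single i 1

/-- The component of multidegree `a` of the module `K_i(x; S) ⊗ I` of the Koszul complex of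
`x_1, …, x_n` with coefficients in the monomial ideal `I`: it has the basis `x^(a - F) e_F`, where
`F` runs through the `i`-element subsets of `{1, …, n}` with `x^(a - F) ∈ I`. Its elements are
written as functions `c` on the subsets `F`. -/
def IsKoszulChain (I : Ideal (MvPolynomial (Fin n) K)) (i : ℕ) (a : Fin n →₀ ℕ)
    (c : Finset (Fin n) → K) : Prop :=
  ∀ F, c F ≠ 0 → F.card = i ∧ expo F ≤ a ∧ monomial (a - expo F) (1 : K) ∈ I

/-- The differential of the Koszul complex,
`e_F ↦ ∑_{j ∈ F} (-1)^(number of l ∈ F with l < j) x_j e_(F \ j)`: the coefficient at `G` of the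
image of `c`. -/
def koszulD (c : Finset (Fin n) → K) (G : Finset (Fin n)) : K :=
  ∑ j ∈ univ \ G, (-1) ^ (G.filter (· < j)).card * c (insert j G)

/-- `Tor_i^S(K, I)_a ≠ 0`: the homology of the Koszul complex `K(x; S) ⊗ I` in homological degree
`i` and multidegree `a` is not zero. -/
def TorNonzero (I : Ideal (MvPolynomial (Fin n) K)) (i : ℕ) (a : Fin n →₀ ℕ) : Prop :=
  ∃ z : Finset (Fin n) → K, IsKoszulChain I i a z ∧ koszulD z = 0 ∧
    ∀ w : Finset (Fin n) → K, IsKoszulChain I (i + 1) a w → koszulD w ≠ z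

/-- The `i`-th homological shift ideal `HS_i(I)`, generated by the monomials `x^a` with
`Tor_i^S(K, I)_a ≠ 0`. -/
noncomputable def HS (i : ℕ) (I : Ideal (MvPolynomial (Fin n) K)) :
    Ideal (MvPolynomial (Fin n) K) :=
  Ideal.span ((fun a => monomial a (1 : K)) '' {a | TorNonzero I i a})

open Q34.Poly

theorem span_mul (S T : Set (Fin n →₀ ℕ)) :
    Ideal.span ((fun u => monomial u (1 : K)) '' S) *
      Ideal.span ((fun u => monomial u (1 : K)) '' T) =
    Ideal.span ((fun u => monomial u (1 : K)) '' {z | ∃ x ∈ S, ∃ y ∈ T, z = x + y}) := by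
  rw [Ideal.span_mul_span']
  congr 1
  ext f
  rw [Set.mem_mul]
  constructor
  · rintro ⟨_, ⟨x, hx, rfl⟩, _, ⟨y, hy, rfl⟩, rfl⟩
    refine ⟨x + y, ⟨x, hx, y, hy, rfl⟩, ?_⟩
    simp only [monomial_mul, one_mul]
  · rintro ⟨_, ⟨x, hx, y, hy, rfl⟩, rfl⟩
    refine ⟨_, ⟨x, hx, rfl⟩, _, ⟨y, hy, rfl⟩, ?_⟩
    simp only [monomial_mul, one_mul]

theorem span_pow (B : Set (Fin n →₀ ℕ)) (m : ℕ) :
    (Ideal.span ((fun u => monomial u (1 : K)) '' B)) ^ m =
      Ideal.span ((fun u => monomial u (1 : K)) '' pw B m) := by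
  induction m with
  | zero =>
    rw [pow_zero, Ideal.one_eq_top, eq_comm, Ideal.eq_top_iff_one]
    refine Ideal.subset_span ⟨0, ⟨Fin.elim0, fun j => j.elim0, by simp⟩, rfl⟩
  | succ m ih => rw [pow_succ, ih, pw_succ, span_mul]

theorem pw_finite {B : Set (Fin n →₀ ℕ)} {d : ℕ} (hd : SameDeg B d) : B.Finite := by
  apply (Set.finite_Iic (Finsupp.equivFunOnFinite.symm fun _ : Fin n => d)).subset
  intro u hu i
  rw [← hd u hu]
  exact single_le_sum (fun _ _ => Nat.zero_le _) (mem_univ i)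

theorem tor_iff {C : Finset (Fin n →₀ ℕ)} (i : ℕ) (a : Fin n →₀ ℕ) :
    TorNonzero (Ideal.span ((fun u => monomial u (1 : K)) '' (C : Set (Fin n →₀ ℕ)))) i a ↔
      TorC K C i a := by
  have h1 : ∀ (i : ℕ) (c : Finset (Fin n) → K),
      IsKoszulChain (Ideal.span ((fun u => monomial u (1 : K)) '' (C : Set (Fin n →₀ ℕ)))) i a c ↔
        Ch C a i c := by
    intro i c
    unfold IsKoszulChain Ch Del
    have h2 : ∀ F : Finset (Fin n), (expo F ≤ a ∧ monomial (a - expo F) (1 : K) ∈
        Ideal.span ((fun u => monomial u (1 : K)) '' (C : Set (Fin n →₀ ℕ)))) ↔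
        ∃ u ∈ C, u + ind F ≤ a := by
      intro F
      rw [mem_ideal_span_monomial_image]
      classical
      rw [support_monomial, if_neg one_ne_zero]
      simp only [mem_singleton, forall_eq, mem_coe]
      constructor
      · rintro ⟨h1, u, hu, h2⟩
        exact ⟨u, hu, (add_le_add_left h2 _).trans (tsub_add_cancel_of_le h1).le⟩
      · rintro ⟨u, hu, h⟩
        exact ⟨le_add_self.trans h, u, hu, le_tsub_of_add_le_right h⟩
    constructor
    · intro h F hF
      exact ⟨(h F hF).1, (h2 F).mp (h F hF).2⟩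
    · intro h F hF
      exact ⟨(h F hF).1, (h2 F).mpr (h F hF).2⟩
  unfold TorNonzero TorC
  constructor
  · rintro ⟨z, hz, hbz, hno⟩
    exact ⟨z, (h1 i z).mp hz, hbz, fun w hw => hno w ((h1 _ w).mpr hw)⟩
  · rintro ⟨z, hz, hbz, hno⟩
    exact ⟨z, (h1 i z).mpr hz, hbz, fun w hw => hno w ((h1 _ w).mp hw)⟩

theorem hs_pow {B : Set (Fin n →₀ ℕ)} {d : ℕ} (hd : SameDeg B d) (hB : Exc B) (i : ℕ) (hi : 1 ≤ i)
    (m : ℕ) : {a | TorNonzero ((Ideal.span ((fun u => monomial u (1 : K)) '' B)) ^ m) i a} =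
      {a | ∃ u ∈ pw B m, ∃ F : Finset (Fin n), F.card = i ∧ a = u + ind F ∧
        ∀ A ⊆ F, A.Nonempty → ¬ Tight (pw B m) u A} := by
  classical
  have hfin := pw_finite (hd.pw m)
  have hC : (hfin.toFinset : Set (Fin n →₀ ℕ)) = pw B m := hfin.coe_toFinset
  ext a
  rw [Set.mem_ofPred_eq, Set.mem_ofPred_eq, span_pow, ← hC, tor_iff,
    torC_iff K (by rw [hC]; exact hB.pw m) (by rw [hC]; exact hd.pw m) i hi a]
  simp only [mem_coe]

/-- **Generation degrees of homological shift algebras.** Let `I` be a polymatroidal ideal in a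
polynomial ring in `n` variables over a field `K` and `i > 0`. Then
`HS_i(I^(k+1)) = I · HS_i(I^k)` for all `k ≥ i`, i.e. the graded `R(I)`-module `HS_i(R(I))` is
generated in degrees `≤ i`. -/
theorem result (K : Type*) [Field K] (n : ℕ) (I : Ideal (MvPolynomial (Fin n) K))
    (hI : IsPolymatroidal I) (i : ℕ) (hi : 0 < i) (k : ℕ) (hk : i ≤ k) :
    HS i (I ^ (k + 1)) = I * HS i (I ^ k) := by
  obtain ⟨B, d, hd, hB, rfl⟩ := hI
  have hd' : SameDeg B d := hd
  have hB' : Exc B := hB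
  unfold HS
  rw [hs_pow hd' hB' i hi, hs_pow hd' hB' i hi, span_mul]
  congr 2
  ext a
  constructor
  · rintro ⟨u, hu, F, hF, ha, ht⟩
    obtain ⟨b, hb, u', hu', heq, ht'⟩ := decomp hB' hd' hu (by omega) ht
    exact ⟨b, hb, u' + ind F, ⟨u', hu', F, hF, rfl, ht'⟩, by rw [ha, heq, add_assoc]⟩
  · rintro ⟨b, hb, _, ⟨u', hu', F, hF, rfl, ht⟩, rfl⟩
    refine ⟨b + u', ?_, F, hF, (add_assoc _ _ _).symm, fun A hA hne =>
      not_tight_add hb (ht A hA hne)⟩
    rw [pw_succ]
    exact ⟨u', hu', b, hb, add_comm _ _⟩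

end Pool.Agent.Results.MP_8dad47_al.GenerationDegree
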